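import Pool.Agent.T9h11.NF.Spec2

/-! PIECE `AbelK` of `T9h11/NF/Spec2.lean`: periodic functions with mean `0` against Lipschitz
functions, in the ring of integers of a number field. -/

set_option autoImplicit false

namespace Pool.Agent.T9h89.NF

open Finset NumberField Pool.Agent.T9h11.NF

variable (K : Type) [Field K] [NumberField K]

/-- sum of the sizes of the elements of an integral basis. -/
noncomputable def Om : ℝ := ∑ i, ‖E (integralBasis K i)‖

theorem Om_nonneg : 0 ≤ Om K := Finset.sum_nonneg fun _ _ => norm_nonneg _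

variable {K}

/-- an integer combination with rational coefficients of absolute value at most `a`. -/
theorem norm_comb (c : Module.Free.ChooseBasisIndex ℤ (𝓞 K) → ℚ) (a : ℝ) (ha : 0 ≤ a)
    (hc : ∀ i, |((c i : ℚ) : ℝ)| ≤ a) :
    ‖E (∑ i, (c i) • integralBasis K i)‖ ≤ a * Om K := by
  rw [map_sum, Om, Finset.mul_sum]
  refine (norm_sum_le _ _).trans (Finset.sum_le_sum fun i _ => ?_)
  refine (pi_norm_le_iff_of_nonneg (by positivity)).2 fun v => ?_
  have h1 : E ((c i) • integralBasis K i) v = ((c i : ℚ) : ℂ) * E (integralBasis K i) v := by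
    change v.embedding ((c i) • integralBasis K i) = ((c i : ℚ) : ℂ) * v.embedding (integralBasis K i)
    rw [Rat.smul_def, map_mul, map_ratCast]
  rw [h1, norm_mul]
  have h2 : ‖((c i : ℚ) : ℂ)‖ = |((c i : ℚ) : ℝ)| := by
    rw [← Complex.ofReal_ratCast, Complex.norm_real, Real.norm_eq_abs]
  rw [h2]
  exact mul_le_mul (hc i) (norm_le_pi_norm _ v) (norm_nonneg _) ha

/-- Minkowski by pigeonhole. -/
theorem exists_small (I : Ideal (𝓞 K)) (s : ℝ) (hI : I ≠ ⊥) (hs : 0 < s)
    (h : nm I ≤ s ^ Module.finrank ℚ K) : ∃ t ∈ I, t ≠ 0 ∧ ‖E (t : K)‖ ≤ Om K * s := by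
  classical
  have h0 : Ideal.absNorm I ≠ 0 := by
    rw [Ne, Ideal.absNorm_eq_zero_iff]; exact hI
  have hfin : Finite (𝓞 K ⧸ I) := (Ideal.absNorm_ne_zero_iff I).1 h0
  haveI : Fintype (𝓞 K ⧸ I) := Fintype.ofFinite _
  set N : ℕ := ⌊s⌋₊ with hN
  let ω := RingOfIntegers.basis K
  let P : Finset (Module.Free.ChooseBasisIndex ℤ (𝓞 K) → ℕ) :=
    Fintype.piFinset (fun _ => Finset.range (N + 1))
  let φ : (Module.Free.ChooseBasisIndex ℤ (𝓞 K) → ℕ) → 𝓞 K := fun f => ∑ i, (f i : ℤ) • ω i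
  have hcard : (Finset.univ : Finset (𝓞 K ⧸ I)).card < P.card := by
    have h1 : (Finset.univ : Finset (𝓞 K ⧸ I)).card = Ideal.absNorm I := by
      rw [Ideal.absNorm_apply, Submodule.cardQuot_apply, Finset.card_univ, Nat.card_eq_fintype_card]
    have h2 : P.card = (N + 1) ^ Module.finrank ℚ K := by
      simp only [P, Fintype.card_piFinset, Finset.card_range, Finset.prod_const, Finset.card_univ]
      rw [← Module.finrank_eq_card_chooseBasisIndex, RingOfIntegers.rank]
    rw [h1, h2]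
    have h3 : (Ideal.absNorm I : ℝ) < ((N : ℝ) + 1) ^ Module.finrank ℚ K := by
      refine lt_of_le_of_lt h ?_
      refine pow_lt_pow_left₀ (Nat.lt_floor_add_one s) hs.le ?_
      exact (Module.finrank_pos (R := ℚ) (M := K)).ne'
    exact_mod_cast h3
  obtain ⟨f, hf, g, hg, hne, he⟩ := Finset.exists_ne_map_eq_of_card_lt_of_maps_to hcard
    (f := fun f => Ideal.Quotient.mk I (φ f)) (fun _ _ => Finset.mem_coe.2 (Finset.mem_univ _))
  refine ⟨φ f - φ g, ?_, ?_, ?_⟩
  · exact Ideal.Quotient.eq.1 he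
  · intro h4
    apply hne
    have h5 : φ f = φ g := sub_eq_zero.1 h4
    funext i
    have h6 := congrArg (fun x => ω.repr x i) h5
    simp only [φ, Module.Basis.repr_sum_self] at h6
    exact_mod_cast h6
  · have h7 : ((φ f - φ g : 𝓞 K) : K) =
        ∑ i, (((f i : ℤ) - (g i : ℤ) : ℤ) : ℚ) • integralBasis K i := by
      have h8 : φ f - φ g = ∑ i, ((f i : ℤ) - (g i : ℤ)) • ω i := by
        simp only [φ, sub_smul, Finset.sum_sub_distrib]
      rw [h8]
      change algebraMap (𝓞 K) K _ = _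
      rw [map_sum]
      refine Finset.sum_congr rfl fun i _ => ?_
      rw [integralBasis_apply, Rat.smul_def, zsmul_eq_mul, map_mul, map_intCast, Rat.cast_intCast]
    rw [h7, mul_comm]
    refine norm_comb _ s hs.le fun i => ?_
    have hfi : f i ≤ N := Nat.lt_succ_iff.1 (Finset.mem_range.1 (Fintype.mem_piFinset.1 hf i))
    have hgi : g i ≤ N := Nat.lt_succ_iff.1 (Finset.mem_range.1 (Fintype.mem_piFinset.1 hg i))
    have hNs : (N : ℝ) ≤ s := Nat.floor_le hs.le
    have hfi' : (f i : ℝ) ≤ N := by exact_mod_cast hfi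
    have hgi' : (g i : ℝ) ≤ N := by exact_mod_cast hgi
    have hf0 : (0 : ℝ) ≤ f i := Nat.cast_nonneg _
    have hg0 : (0 : ℝ) ≤ g i := Nat.cast_nonneg _
    push_cast
    rw [abs_le]
    constructor <;> linarith

/-- division with remainder of bounded size. -/
theorem exists_rem (t x : 𝓞 K) (ht : t ≠ 0) :
    ∃ y : 𝓞 K, ‖E ((x - t * y : 𝓞 K) : K)‖ ≤ ‖E (t : K)‖ * Om K := by
  classical
  let ω := RingOfIntegers.basis K
  let a := (integralBasis K).repr ((x : K) / t)
  have ht' : (t : K) ≠ 0 := RingOfIntegers.coe_ne_zero_iff.2 ht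
  refine ⟨∑ i, ⌊a i⌋ • ω i, ?_⟩
  have h1 : ((x - t * ∑ i, ⌊a i⌋ • ω i : 𝓞 K) : K) =
      (t : K) * ∑ i, (Int.fract (a i)) • integralBasis K i := by
    have h2 : ((∑ i, ⌊a i⌋ • ω i : 𝓞 K) : K) = ∑ i, ((⌊a i⌋ : ℤ) : ℚ) • integralBasis K i := by
      change algebraMap (𝓞 K) K _ = _
      rw [map_sum]
      refine Finset.sum_congr rfl fun i _ => ?_
      rw [integralBasis_apply, Rat.smul_def, zsmul_eq_mul, map_mul, map_intCast, Rat.cast_intCast]
    have h3 : (x : K) / t = ∑ i, a i • integralBasis K i :=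
      ((integralBasis K).sum_repr ((x : K) / t)).symm
    have h4 : ((x - t * ∑ i, ⌊a i⌋ • ω i : 𝓞 K) : K) = (x : K) - t * ((∑ i, ⌊a i⌋ • ω i : 𝓞 K) : K) := by
      change algebraMap (𝓞 K) K _ = algebraMap (𝓞 K) K _ - algebraMap (𝓞 K) K _ * algebraMap (𝓞 K) K _
      rw [map_sub, map_mul]
    rw [h4, h2]
    have h5 : (x : K) = t * ∑ i, a i • integralBasis K i := by
      rw [← h3]; field_simp
    rw [h5, ← mul_sub, ← Finset.sum_sub_distrib]
    congr 1
    refine Finset.sum_congr rfl fun i _ => ?_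
    rw [← sub_smul]
    rfl
  rw [h1, map_mul]
  refine (norm_mul_le _ _).trans (mul_le_mul_of_nonneg_left ?_ (norm_nonneg _))
  have := norm_comb (K := K) (fun i => Int.fract (a i)) 1 zero_le_one fun i => by
    have h6 : (0 : ℝ) ≤ ((Int.fract (a i) : ℚ) : ℝ) := by exact_mod_cast Int.fract_nonneg (a i)
    have h7 : ((Int.fract (a i) : ℚ) : ℝ) ≤ 1 := by exact_mod_cast (Int.fract_lt_one (a i)).le
    rw [abs_of_nonneg h6]; exact h7
  linarith

/-- representatives of bounded size. -/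
theorem exists_rep (I : Ideal (𝓞 K)) (s : ℝ) (hI : I ≠ ⊥) (hs : 0 < s)
    (h : nm I ≤ s ^ Module.finrank ℚ K) : ∃ ρ : 𝓞 K ⧸ I → 𝓞 K,
      ∀ q, Ideal.Quotient.mk I (ρ q) = q ∧ ‖E (ρ q : K)‖ ≤ Om K ^ 2 * s := by
  obtain ⟨t, htI, ht0, ht⟩ := exists_small I s hI hs h
  have key : ∀ q : 𝓞 K ⧸ I, ∃ x : 𝓞 K, Ideal.Quotient.mk I x = q ∧ ‖E (x : K)‖ ≤ Om K ^ 2 * s := by
    intro q
    obtain ⟨x, rfl⟩ := Ideal.Quotient.mk_surjective q
    obtain ⟨y, hy⟩ := exists_rem t x ht0
    refine ⟨x - t * y, ?_, hy.trans ?_⟩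
    · rw [Ideal.Quotient.eq]
      have : x - t * y - x = -(t * y) := by ring
      rw [this]
      exact I.neg_mem (I.mul_mem_right _ htI)
    · have := mul_le_mul_of_nonneg_right ht (Om_nonneg K)
      nlinarith [this]
  choose ρ hρ using key
  exact ⟨ρ, hρ⟩

variable (K)

theorem abelK : AbelK K := by
  classical
  refine ⟨max 1 (Om K ^ 2), le_max_left _ _, ?_⟩
  intro T s hT hs hnm _ g hg F L B hL hB hF S S' hS hS'
  set C : ℝ := max 1 (Om K ^ 2) with hC
  obtain ⟨ρ, hρ⟩ := exists_rep T s hT hs hnm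
  have hρC : ∀ q, ‖E (ρ q : K)‖ ≤ C * s := fun q =>
    (hρ q).2.trans (mul_le_mul_of_nonneg_right (le_max_right _ _) hs.le)
  obtain ⟨hlip, hsup⟩ := hF
  set G : 𝓞 K → ℂ := fun x => g (Ideal.Quotient.mk T x) with hG
  set f : 𝓞 K → ℝ := fun x => F (E (x : K)) with hf
  let P : Finset (𝓞 K) := S.filter (fun x => f x ≠ 0)
  let U : Finset (𝓞 K) := P ∪ Finset.univ.biUnion (fun q => P.image (fun x => x - ρ q))
  have hPU : ∀ x, f x ≠ 0 → x ∈ U := fun x hx =>
    Finset.mem_union_left _ (Finset.mem_filter.2 ⟨hS x hx, hx⟩)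
  have hPU' : ∀ x q, f (x + ρ q) ≠ 0 → x ∈ U := by
    intro x q hx
    refine Finset.mem_union_right _ (Finset.mem_biUnion.2 ⟨q, Finset.mem_univ _, ?_⟩)
    refine Finset.mem_image.2 ⟨x + ρ q, Finset.mem_filter.2 ⟨hS _ hx, hx⟩, ?_⟩
    ring
  set A : ℂ := ∑ x ∈ S, G x * (f x : ℂ) with hA
  have hcoe : ∀ x y : 𝓞 K, E ((x + y : 𝓞 K) : K) = E (x : K) + E (y : K) := by
    intro x y
    rw [← map_add]
    congr 1
  -- translation invariance
  have h1 : ∀ q, A = ∑ x ∈ U, G (x + ρ q) * (f (x + ρ q) : ℂ) := by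
    intro q
    rw [hA]
    have e1 : ∑ x ∈ S, G x * (f x : ℂ) = ∑ x ∈ P, G x * (f x : ℂ) := by
      refine (Finset.sum_filter_of_ne ?_).symm
      intro x _ hx h0
      apply hx
      rw [h0]; simp
    have e2 : ∑ x ∈ P, G x * (f x : ℂ) =
        ∑ x ∈ P.image (fun x => x - ρ q), G (x + ρ q) * (f (x + ρ q) : ℂ) := by
      rw [Finset.sum_image]
      · refine Finset.sum_congr rfl fun x _ => ?_
        rw [sub_add_cancel]
      · intro x _ y _ hxy
        exact sub_left_injective hxy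
    rw [e1, e2]
    refine Finset.sum_subset ?_ ?_
    · intro x hx
      exact Finset.mem_union_right _ (Finset.mem_biUnion.2 ⟨q, Finset.mem_univ _, hx⟩)
    · intro x _ hx
      have : f (x + ρ q) = 0 := by
        by_contra h0
        apply hx
        refine Finset.mem_image.2 ⟨x + ρ q, Finset.mem_filter.2 ⟨hS _ h0, h0⟩, ?_⟩
        ring
      rw [this]; simp
  have h2 : ∑ q, ∑ x ∈ U, G (x + ρ q) * (f x : ℂ) = 0 := by
    rw [Finset.sum_comm]
    refine Finset.sum_eq_zero fun x _ => ?_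
    rw [← Finset.sum_mul]
    have : ∑ q, G (x + ρ q) = 0 := by
      have e3 : ∀ q, G (x + ρ q) = g (Ideal.Quotient.mk T x + q) := by
        intro q
        simp only [hG]
        rw [map_add, (hρ q).1]
      rw [Finset.sum_congr rfl fun q _ => e3 q]
      rw [← hg]
      exact Fintype.sum_equiv (Equiv.addLeft (Ideal.Quotient.mk T x)) _ _ fun q => rfl
    rw [this, zero_mul]
  have h3 : (Fintype.card (𝓞 K ⧸ T) : ℂ) * A =
      ∑ q, ∑ x ∈ U, G (x + ρ q) * ((f (x + ρ q) - f x : ℝ) : ℂ) := by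
    have e4 : ∑ q, ∑ x ∈ U, G (x + ρ q) * ((f (x + ρ q) - f x : ℝ) : ℂ) =
        ∑ q, ∑ x ∈ U, G (x + ρ q) * (f (x + ρ q) : ℂ) - ∑ q, ∑ x ∈ U, G (x + ρ q) * (f x : ℂ) := by
      rw [← Finset.sum_sub_distrib]
      refine Finset.sum_congr rfl fun q _ => ?_
      rw [← Finset.sum_sub_distrib]
      refine Finset.sum_congr rfl fun x _ => ?_
      push_cast
      ring
    rw [e4, h2, sub_zero, ← Finset.sum_congr rfl (fun q _ => h1 q)]
    simp
  have h4 : ∀ q, ‖∑ x ∈ U, G (x + ρ q) * ((f (x + ρ q) - f x : ℝ) : ℂ)‖ ≤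
      C * L * s * ∑ x ∈ S', ‖G x‖ := by
    intro q
    refine (norm_sum_le _ _).trans ?_
    have e5 : ∀ x ∈ U, ‖G (x + ρ q) * ((f (x + ρ q) - f x : ℝ) : ℂ)‖ ≤
        if x + ρ q ∈ S' then C * L * s * ‖G (x + ρ q)‖ else 0 := by
      intro x _
      have e6 : |f (x + ρ q) - f x| ≤ C * L * s := by
        refine (hlip _ _).trans ?_
        have : E ((x + ρ q : 𝓞 K) : K) - E (x : K) = E (ρ q : K) := by
          rw [hcoe]; ring
        rw [this]
        have := mul_le_mul_of_nonneg_left (hρC q) hL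
        linarith
      by_cases hz : f (x + ρ q) - f x = 0
      · rw [hz]
        simp only [Complex.ofReal_zero, mul_zero, norm_zero]
        split_ifs
        · positivity
        · exact le_refl _
      · have e7 : x + ρ q ∈ S' := by
          apply hS'
          by_cases hx : f (x + ρ q) = 0
          · have hx' : f x ≠ 0 := by
              intro h0; apply hz; rw [hx, h0, sub_zero]
            rw [hcoe]
            exact (norm_add_le _ _).trans (add_le_add (hsup _ hx') (hρC q))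
          · exact (hsup _ hx).trans (le_add_of_nonneg_right (by positivity))
        rw [if_pos e7, norm_mul, Complex.norm_real, Real.norm_eq_abs, mul_comm]
        exact mul_le_mul_of_nonneg_right e6 (norm_nonneg _)
    refine (Finset.sum_le_sum e5).trans ?_
    rw [← Finset.sum_filter, ← Finset.mul_sum]
    refine mul_le_mul_of_nonneg_left ?_ (by positivity)
    have e8 : ∑ x ∈ U.filter (fun x => x + ρ q ∈ S'), ‖G (x + ρ q)‖ =
        ∑ y ∈ (U.filter (fun x => x + ρ q ∈ S')).image (fun x => x + ρ q), ‖G y‖ := by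
      rw [Finset.sum_image]
      intro x _ y _ hxy
      exact add_left_injective _ hxy
    rw [e8]
    refine Finset.sum_le_sum_of_subset_of_nonneg ?_ fun _ _ _ => norm_nonneg _
    intro y hy
    obtain ⟨x, hx, rfl⟩ := Finset.mem_image.1 hy
    exact (Finset.mem_filter.1 hx).2
  have h5 : (Fintype.card (𝓞 K ⧸ T) : ℝ) * ‖A‖ ≤
      (Fintype.card (𝓞 K ⧸ T) : ℝ) * (C * L * s * ∑ x ∈ S', ‖G x‖) := by
    have e9 : (Fintype.card (𝓞 K ⧸ T) : ℝ) * ‖A‖ = ‖(Fintype.card (𝓞 K ⧸ T) : ℂ) * A‖ := by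
      rw [norm_mul, Complex.norm_natCast]
    rw [e9, h3]
    refine (norm_sum_le _ _).trans ((Finset.sum_le_sum fun q _ => h4 q).trans ?_)
    simp
  have h6 : (0 : ℝ) < Fintype.card (𝓞 K ⧸ T) := by
    haveI : Nonempty (𝓞 K ⧸ T) := ⟨0⟩
    exact_mod_cast Fintype.card_pos
  exact le_of_mul_le_mul_left h5 h6

end Pool.Agent.T9h89.NF
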